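import Pool.Agent.W319.GABC.E

/-! Tuples with small radical and superpolynomial height: the asymptotic form. -/

set_option autoImplicit false

namespace Pool.Agent.W319.GABC

open Finset Filter

theorem ev_ineq (A m ε : ℝ) (hm : 0 < m) (hε : 0 < ε) : ∀ᶠ L : ℝ in atTop,
    A + 4 * m * Real.log L * (2 : ℝ) ^ (Real.log L) + m * (L / Real.log L) ≤ ε * L := by
  have hlog2 : Real.log 2 < 1 := by
    have := Real.log_two_lt_d9
    linarith
  have h1 : ∀ᶠ L : ℝ in atTop, A ≤ ε / 3 * L := by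
    filter_upwards [eventually_ge_atTop (A / (ε / 3))] with L hL
    rwa [div_le_iff₀ (by positivity), mul_comm] at hL
  have h2 : ∀ᶠ L : ℝ in atTop, m * (L / Real.log L) ≤ ε / 3 * L := by
    filter_upwards [Real.tendsto_log_atTop.eventually_ge_atTop (m / (ε / 3)),
      eventually_ge_atTop (1 : ℝ), Real.tendsto_log_atTop.eventually_ge_atTop (1 : ℝ)]
      with L hL hL1 hL2
    have hlog : 0 < Real.log L := by linarith
    rw [div_le_iff₀ (by positivity)] at hL
    rw [mul_div_assoc', div_le_iff₀ hlog]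
    nlinarith
  have h3 : ∀ᶠ L : ℝ in atTop, 4 * m * Real.log L * (2 : ℝ) ^ (Real.log L) ≤ ε / 3 * L := by
    have h4 := (isLittleO_log_rpow_atTop (r := 1 - Real.log 2) (by linarith)).def
      (c := ε / (12 * m)) (by positivity)
    filter_upwards [h4, eventually_ge_atTop (1 : ℝ)] with L hL hL1
    have hL0 : 0 < L := by linarith
    rw [Real.norm_of_nonneg (Real.log_nonneg hL1), Real.norm_of_nonneg (by positivity)] at hL
    have h5 : (2 : ℝ) ^ (Real.log L) = L ^ (Real.log 2) := by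
      rw [Real.rpow_def_of_pos (by norm_num), Real.rpow_def_of_pos hL0, mul_comm]
    rw [h5]
    have h6 : L ^ (1 - Real.log 2) * L ^ (Real.log 2) = L := by
      rw [← Real.rpow_add hL0, sub_add_cancel, Real.rpow_one]
    have h7 : Real.log L * L ^ (Real.log 2) ≤ ε / (12 * m) * L := by
      calc Real.log L * L ^ (Real.log 2) ≤
            (ε / (12 * m) * L ^ (1 - Real.log 2)) * L ^ (Real.log 2) :=
            mul_le_mul_of_nonneg_right hL (by positivity)
        _ = ε / (12 * m) * L := by rw [mul_assoc, h6]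
    calc 4 * m * Real.log L * L ^ (Real.log 2) = 4 * m * (Real.log L * L ^ (Real.log 2)) := by ring
      _ ≤ 4 * m * (ε / (12 * m) * L) := mul_le_mul_of_nonneg_left h7 (by positivity)
      _ = ε / 3 * L := by
          field_simp
          ring
  filter_upwards [h1, h2, h3] with L a b c
  linarith

theorem main2 (n : ℕ) (hn : 3 ≤ n) (ε : ℝ) (hε : 0 < ε) :
    ∃ c : ℝ, 0 < c ∧ ∃ Y₀ : ℕ, ∀ Y : ℕ, Y₀ ≤ Y →
      ({x : Fin n → ℤ | Adm x ∧ Rad x ≤ Y ∧
        ∀ i, ((|x i| : ℤ) : ℝ) ≤ (Y : ℝ) ^ (c * Real.log (Real.log Y))}).Finite ∧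
      (({x : Fin n → ℤ | Adm x ∧ Rad x ≤ Y ∧
        ∀ i, ((|x i| : ℤ) : ℝ) ≤ (Y : ℝ) ^ (c * Real.log (Real.log Y))}.ncard : ℕ) : ℝ) ≤
        (Y : ℝ) ^ (th n + ε) := by
  have hn0 : (0 : ℝ) < n := by exact_mod_cast (by omega : 0 < n)
  have hn1 : (1 : ℝ) ≤ n := by exact_mod_cast (by omega : 1 ≤ n)
  have hth0 := th_nonneg n
  have hth1 := th_le_one n
  set c : ℝ := ε / (2 * n * (n + 1)) with hc
  have hc0 : 0 < c := by
    rw [hc]
    positivity
  set A : ℝ := Real.log (n.factorial : ℝ) + n * Real.log 2 + n * (n * Real.log n) with hA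
  have hev := ev_ineq A n (ε / 2) hn0 (by positivity)
  have hlogY : Tendsto (fun Y : ℕ => Real.log (Y : ℝ)) atTop atTop :=
    Real.tendsto_log_atTop.comp tendsto_natCast_atTop_atTop
  have hall : ∀ᶠ Y : ℕ in atTop, 1 ≤ Y ∧ 1 ≤ Real.log (Real.log Y) ∧ 1 ≤ Real.log (Y : ℝ) ∧
      A + 4 * n * Real.log (Real.log Y) * (2 : ℝ) ^ (Real.log (Real.log Y)) +
        n * (Real.log Y / Real.log (Real.log Y)) ≤ ε / 2 * Real.log Y := by
    filter_upwards [eventually_ge_atTop 1,
      (Real.tendsto_log_atTop.comp hlogY).eventually_ge_atTop (1 : ℝ),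
      hlogY.eventually_ge_atTop (1 : ℝ), hlogY.eventually hev] with Y h1 h2 h3 h4
    exact ⟨h1, h2, h3, h4⟩
  obtain ⟨Y₀, hY₀⟩ := eventually_atTop.1 hall
  refine ⟨c, hc0, Y₀, fun Y hY => ?_⟩
  obtain ⟨hY1, hl1, hL1, hE⟩ := hY₀ Y hY
  set L := Real.log (Y : ℝ) with hL
  set l := Real.log L with hl
  have hYpos : (0 : ℝ) < Y := by exact_mod_cast hY1
  have hYexp : (Y : ℝ) = Real.exp L := by rw [hL, Real.exp_log hYpos]
  have hl0 : 0 < l := by linarith
  have hL0 : 0 < L := by linarith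
  set Hr : ℝ := (Y : ℝ) ^ (c * l) with hHr
  have hHr' : Hr = Real.exp (c * l * L) := by
    rw [hHr, Real.rpow_def_of_pos hYpos, ← hL]
    congr 1
    ring
  have hHr1 : 1 ≤ Hr := by
    rw [hHr']
    apply Real.one_le_exp
    positivity
  set H : ℕ := ⌊Hr⌋₊ with hH
  have hH1 : 1 ≤ H := by
    rw [hH]
    exact Nat.le_floor (by exact_mod_cast hHr1)
  have hHle : (H : ℝ) ≤ Real.exp (c * l * L) := by
    rw [← hHr']
    exact Nat.floor_le (by linarith)
  have hset : {x : Fin n → ℤ | Adm x ∧ Rad x ≤ Y ∧ ∀ i, ((|x i| : ℤ) : ℝ) ≤ Hr} = UU n H Y := by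
    ext x
    constructor
    · rintro ⟨h1, h2, h3⟩
      refine ⟨h1, fun i => ?_, h2⟩
      have h4 : (|x i|).toNat ≤ H := by
        rw [hH]
        apply Nat.le_floor
        have h5 : (((|x i|).toNat : ℤ) : ℝ) = ((|x i| : ℤ) : ℝ) := by
          rw [Int.toNat_of_nonneg (abs_nonneg _)]
        rw [Int.cast_natCast] at h5
        rw [h5]
        exact h3 i
      have h6 := Int.toNat_of_nonneg (abs_nonneg (x i))
      omega
    · rintro ⟨h1, h2, h3⟩
      refine ⟨h1, h3, fun i => ?_⟩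
      have h4 : ((|x i| : ℤ) : ℝ) ≤ (H : ℝ) := by exact_mod_cast h2 i
      exact h4.trans (Nat.floor_le (by linarith))
  rw [hset]
  have hδ : (0 : ℝ) < 1 / l := by positivity
  have hδ1 : 1 / l ≤ 1 := by
    rw [div_le_one hl0]
    exact hl1
  obtain ⟨hfin, hcard⟩ := gen n (by omega) (1 / l) hδ hδ1 H Y hH1
  refine ⟨hfin, hcard.trans ?_⟩
  have e1 : (2 : ℝ) / (1 / l) = 2 * l := by
    field_simp
  have e2 : (1 : ℝ) / (1 / l) = l := one_div_one_div l
  rw [e1, e2]
  have hP : ((⌈(2 : ℝ) ^ l⌉₊ : ℕ) : ℝ) ≤ 2 * (2 : ℝ) ^ l := by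
    have h1 : (1 : ℝ) ≤ (2 : ℝ) ^ l := Real.one_le_rpow (by norm_num) hl0.le
    have h2 := Nat.ceil_lt_add_one (show (0 : ℝ) ≤ (2 : ℝ) ^ l by positivity)
    linarith
  have hK : (2 * l) ^ ⌈(2 : ℝ) ^ l⌉₊ ≤ Real.exp (4 * l * (2 : ℝ) ^ l) := by
    have h1 : 2 * l ≤ Real.exp (2 * l) := by
      have := Real.add_one_le_exp (2 * l)
      linarith
    calc (2 * l) ^ ⌈(2 : ℝ) ^ l⌉₊ ≤ (Real.exp (2 * l)) ^ ⌈(2 : ℝ) ^ l⌉₊ :=
          pow_le_pow_left₀ (by positivity) h1 _
      _ = Real.exp (⌈(2 : ℝ) ^ l⌉₊ * (2 * l)) := (Real.exp_nat_mul _ _).symm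
      _ ≤ Real.exp (4 * l * (2 : ℝ) ^ l) := by
          apply Real.exp_le_exp.2
          nlinarith
  have hin : (H : ℝ) * ((Y : ℝ) ^ th n * ((n : ℝ) * H) ^ n) ≤
      Real.exp (c * l * L + (th n * L + n * (Real.log n + c * l * L))) := by
    rw [Real.exp_add, Real.exp_add, Real.exp_nat_mul, Real.exp_add, Real.exp_log hn0]
    have h1 : (Y : ℝ) ^ th n = Real.exp (th n * L) := by
      rw [Real.rpow_def_of_pos hYpos, ← hL, mul_comm]
    rw [h1]
    apply mul_le_mul hHle _ (by positivity) (by positivity)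
    apply mul_le_mul_of_nonneg_left _ (by positivity)
    apply pow_le_pow_left₀ (by positivity)
    exact mul_le_mul_of_nonneg_left hHle hn0.le
  have hin2 : ((H : ℝ) * ((Y : ℝ) ^ th n * ((n : ℝ) * H) ^ n)) ^ (1 / l) ≤
      Real.exp ((n + 1) * c * L + L / l + n * Real.log n) := by
    calc ((H : ℝ) * ((Y : ℝ) ^ th n * ((n : ℝ) * H) ^ n)) ^ (1 / l) ≤
          (Real.exp (c * l * L + (th n * L + n * (Real.log n + c * l * L)))) ^ (1 / l) :=
          Real.rpow_le_rpow (by positivity) hin hδ.le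
      _ = Real.exp ((c * l * L + (th n * L + n * (Real.log n + c * l * L))) * (1 / l)) := by
          rw [← Real.exp_mul]
      _ ≤ Real.exp ((n + 1) * c * L + L / l + n * Real.log n) := by
          apply Real.exp_le_exp.2
          have h1 : (c * l * L + (th n * L + n * (Real.log n + c * l * L))) * (1 / l) =
              (n + 1) * c * L + th n * (L / l) + n * (Real.log n * (1 / l)) := by
            field_simp
            ring
          rw [h1]
          have h2 : th n * (L / l) ≤ L / l := by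
            have : 0 ≤ L / l := by positivity
            nlinarith
          have h3 : Real.log n * (1 / l) ≤ Real.log n := by
            have : 0 ≤ Real.log (n : ℝ) := Real.log_nonneg hn1
            nlinarith
          have h4 : (n : ℝ) * (Real.log n * (1 / l)) ≤ n * Real.log n :=
            mul_le_mul_of_nonneg_left h3 hn0.le
          linarith
  have hB : 2 * (2 * l) ^ ⌈(2 : ℝ) ^ l⌉₊ *
      ((H : ℝ) * ((Y : ℝ) ^ th n * ((n : ℝ) * H) ^ n)) ^ (1 / l) ≤
      Real.exp (Real.log 2 + 4 * l * (2 : ℝ) ^ l +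
        ((n + 1) * c * L + L / l + n * Real.log n)) := by
    rw [Real.exp_add, Real.exp_add, Real.exp_log (by norm_num)]
    apply mul_le_mul _ hin2 (by positivity) (by positivity)
    exact mul_le_mul_of_nonneg_left hK (by norm_num)
  have hfac : (n.factorial : ℝ) = Real.exp (Real.log (n.factorial : ℝ)) := by
    rw [Real.exp_log]
    exact_mod_cast Nat.factorial_pos n
  have hYth : (Y : ℝ) ^ th n = Real.exp (th n * L) := by
    rw [Real.rpow_def_of_pos hYpos, ← hL, mul_comm]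
  calc (n.factorial : ℝ) * (Y : ℝ) ^ th n * (2 * (2 * l) ^ ⌈(2 : ℝ) ^ l⌉₊ *
      ((H : ℝ) * ((Y : ℝ) ^ th n * ((n : ℝ) * H) ^ n)) ^ (1 / l)) ^ n ≤
      (n.factorial : ℝ) * (Y : ℝ) ^ th n * (Real.exp (Real.log 2 + 4 * l * (2 : ℝ) ^ l +
        ((n + 1) * c * L + L / l + n * Real.log n))) ^ n := by
        apply mul_le_mul_of_nonneg_left _ (by positivity)
        exact pow_le_pow_left₀ (by positivity) hB n
    _ = Real.exp (Real.log (n.factorial : ℝ)) * Real.exp (th n * L) * Real.exp (n * (Real.log 2 +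
        4 * l * (2 : ℝ) ^ l + ((n + 1) * c * L + L / l + n * Real.log n))) := by
        rw [← hfac, ← hYth, Real.exp_nat_mul]
    _ = Real.exp (Real.log (n.factorial : ℝ) + th n * L + n * (Real.log 2 +
        4 * l * (2 : ℝ) ^ l + ((n + 1) * c * L + L / l + n * Real.log n))) := by
        rw [← Real.exp_add, ← Real.exp_add]
    _ ≤ Real.exp ((th n + ε) * L) := by
        apply Real.exp_le_exp.2
        have h1 : (n : ℝ) * ((n + 1) * c * L) = ε / 2 * L := by
          rw [hc]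
          field_simp
        have h2 : Real.log (n.factorial : ℝ) + th n * L + n * (Real.log 2 +
            4 * l * (2 : ℝ) ^ l + ((n + 1) * c * L + L / l + n * Real.log n)) =
            (A + 4 * n * l * (2 : ℝ) ^ l + n * (L / l)) + th n * L +
              (n : ℝ) * ((n + 1) * c * L) := by
          rw [hA]
          ring
        rw [h2, h1]
        linarith
    _ = (Y : ℝ) ^ (th n + ε) := by
        rw [Real.rpow_def_of_pos hYpos, ← hL, mul_comm]

end Pool.Agent.W319.GABC
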