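import Mathlib

/-! The number of integers up to `X` composed of the primes dividing `M` (Rankin's trick). -/

set_option autoImplicit false

namespace Pool.Agent.W319.GABC

open Finset

/-- the completely multiplicative function `m ↦ m ^ (-δ)` -/
noncomputable def fd (δ : ℝ) : ℕ →* ℝ where
  toFun m := (m : ℝ) ^ (-δ)
  map_one' := by simp
  map_mul' m n := by
    rw [Nat.cast_mul, Real.mul_rpow (Nat.cast_nonneg _) (Nat.cast_nonneg _)]

theorem fd_apply (δ : ℝ) (m : ℕ) : fd δ m = (m : ℝ) ^ (-δ) := rfl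

theorem fd_lt {δ : ℝ} (hδ : 0 < δ) {p : ℕ} (hp : p.Prime) : ‖fd δ p‖ < 1 := by
  rw [fd_apply, Real.norm_of_nonneg (Real.rpow_nonneg (Nat.cast_nonneg _) _)]
  apply Real.rpow_lt_one_of_one_lt_of_neg
  · exact_mod_cast hp.one_lt
  · linarith

/-- the counting function -/
def NN (X M : ℕ) : Finset ℕ := (Icc 1 X).filter fun m => m.primeFactors ⊆ M.primeFactors

theorem rankin {δ : ℝ} (hδ : 0 < δ) (X M : ℕ) :
    ((NN X M).card : ℝ) ≤ (X : ℝ) ^ δ * ∏ p ∈ M.primeFactors, (1 - (p : ℝ) ^ (-δ))⁻¹ := by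
  have h := EulerProduct.summable_and_hasSum_factoredNumbers_prod_filter_prime_geometric
    (f := fd δ) (fun {p} hp => fd_lt hδ hp) M.primeFactors
  have hfil : M.primeFactors.filter Nat.Prime = M.primeFactors := by
    apply Finset.filter_true_of_mem
    intro p hp
    exact Nat.prime_of_mem_primeFactors hp
  rw [hfil] at h
  obtain ⟨hs, hsum⟩ := h
  have hmem : ∀ m ∈ NN X M, m ∈ Nat.factoredNumbers M.primeFactors := by
    intro m hm
    rw [NN, mem_filter, mem_Icc] at hm
    exact Nat.mem_factoredNumbers_of_primeFactors_subset (by omega) hm.2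
  have h1 : ∑ m ∈ NN X M, (m : ℝ) ^ (-δ) ≤ ∏ p ∈ M.primeFactors, (1 - (p : ℝ) ^ (-δ))⁻¹ := by
    have h2 := sum_le_hasSum ((NN X M).subtype (fun m => m ∈ Nat.factoredNumbers M.primeFactors))
      (fun i _ => by
        rw [fd_apply]
        exact Real.rpow_nonneg (Nat.cast_nonneg _) _) hsum
    rw [Finset.sum_subtype_of_mem (fun m => fd δ m) hmem] at h2
    exact h2
  have h3 : ((NN X M).card : ℝ) ≤ ∑ m ∈ NN X M, (X : ℝ) ^ δ * (m : ℝ) ^ (-δ) := by
    rw [Finset.card_eq_sum_ones]
    push_cast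
    apply Finset.sum_le_sum
    intro m hm
    rw [NN, mem_filter, mem_Icc] at hm
    have hm0 : (0 : ℝ) < m := by exact_mod_cast hm.1.1
    rw [Real.rpow_neg hm0.le, ← div_eq_mul_inv, ← Real.div_rpow (Nat.cast_nonneg _) hm0.le]
    apply Real.one_le_rpow _ hδ.le
    rw [one_le_div hm0]
    exact_mod_cast hm.1.2
  rw [← Finset.mul_sum] at h3
  exact h3.trans (mul_le_mul_of_nonneg_left h1 (Real.rpow_nonneg (Nat.cast_nonneg _) _))

theorem count {δ : ℝ} (hδ : 0 < δ) : ∃ C : ℝ, 1 ≤ C ∧ ∀ X M : ℕ, 1 ≤ M →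
    ((NN X M).card : ℝ) ≤ C * ((X : ℝ) * M) ^ δ := by
  obtain ⟨P, hP⟩ := exists_nat_ge ((2 : ℝ) ^ (1 / δ))
  have h2δ : (2 : ℝ) ^ (-δ) < 1 := by
    apply Real.rpow_lt_one_of_one_lt_of_neg (by norm_num) (by linarith)
  have h2δ' : (0 : ℝ) < (2 : ℝ) ^ (-δ) := Real.rpow_pos_of_pos (by norm_num) _
  set K : ℝ := (1 - (2 : ℝ) ^ (-δ))⁻¹ with hK
  have hK1 : 1 ≤ K := by
    rw [hK]
    apply (one_le_inv₀ (by linarith)).2
    linarith
  refine ⟨K ^ P, one_le_pow₀ hK1, fun X M hM => ?_⟩
  rcases Nat.eq_zero_or_pos X with hX | hX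
  · subst hX
    have h0 : NN 0 M = ∅ := by
      rw [NN]
      simp
    rw [h0, card_empty, Nat.cast_zero]
    positivity
  refine (rankin hδ X M).trans ?_
  have hfac : ∀ p ∈ M.primeFactors, (1 - (p : ℝ) ^ (-δ))⁻¹ ≤
      (if p < P then K else 1) * (p : ℝ) ^ δ := by
    intro p hp
    have hpp := Nat.prime_of_mem_primeFactors hp
    have hp2 : (2 : ℝ) ≤ p := by exact_mod_cast hpp.two_le
    have hp0 : (0 : ℝ) < p := by linarith
    have hpδ : (1 : ℝ) ≤ (p : ℝ) ^ δ := Real.one_le_rpow (by linarith) hδ.le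
    have hpm : (p : ℝ) ^ (-δ) ≤ (2 : ℝ) ^ (-δ) :=
      Real.rpow_le_rpow_of_nonpos (by norm_num) hp2 (by linarith)
    split_ifs with h
    · have h1 : (1 - (p : ℝ) ^ (-δ))⁻¹ ≤ K := by
        rw [hK]
        apply inv_anti₀ (by linarith)
        linarith
      calc (1 - (p : ℝ) ^ (-δ))⁻¹ ≤ K := h1
        _ = K * 1 := (mul_one K).symm
        _ ≤ K * (p : ℝ) ^ δ := mul_le_mul_of_nonneg_left hpδ (by linarith)
    · rw [one_mul]
      have h2 : (2 : ℝ) ≤ (p : ℝ) ^ δ := by
        have h3 : (2 : ℝ) ^ (1 / δ) ≤ p := hP.trans (by exact_mod_cast Nat.le_of_not_lt h)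
        calc (2 : ℝ) = ((2 : ℝ) ^ (1 / δ)) ^ δ := by
              rw [← Real.rpow_mul (by norm_num), one_div_mul_cancel hδ.ne', Real.rpow_one]
          _ ≤ (p : ℝ) ^ δ := Real.rpow_le_rpow (by positivity) h3 hδ.le
      rw [Real.rpow_neg hp0.le]
      have h4 : (0 : ℝ) < (p : ℝ) ^ δ := by linarith
      rw [inv_le_comm₀ (by rw [sub_pos]; apply inv_lt_one_of_one_lt₀; linarith) h4]
      have h5 : ((p : ℝ) ^ δ)⁻¹ ≤ 1 / 2 := by
        rw [inv_le_comm₀ h4 (by norm_num)]
        norm_num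
        exact h2
      linarith
  have h1 : ∏ p ∈ M.primeFactors, (1 - (p : ℝ) ^ (-δ))⁻¹ ≤ K ^ P * (M : ℝ) ^ δ := by
    calc ∏ p ∈ M.primeFactors, (1 - (p : ℝ) ^ (-δ))⁻¹
        ≤ ∏ p ∈ M.primeFactors, (if p < P then K else 1) * (p : ℝ) ^ δ := by
          apply Finset.prod_le_prod
          · intro p hp
            have hpp := Nat.prime_of_mem_primeFactors hp
            have h6 := fd_lt hδ hpp
            rw [fd_apply, Real.norm_of_nonneg (Real.rpow_nonneg (Nat.cast_nonneg _) _)] at h6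
            apply inv_nonneg.2
            linarith
          · exact hfac
      _ = (∏ p ∈ M.primeFactors, (if p < P then K else 1)) *
            (∏ p ∈ M.primeFactors, (p : ℝ)) ^ δ := by
          rw [Finset.prod_mul_distrib, Real.finsetProd_rpow]
          intro p _
          exact Nat.cast_nonneg _
      _ ≤ K ^ P * (M : ℝ) ^ δ := by
          apply mul_le_mul
          · rw [Finset.prod_ite, Finset.prod_const, Finset.prod_const_one, mul_one]
            apply pow_le_pow_right₀ hK1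
            calc (M.primeFactors.filter fun p => p < P).card ≤ (Finset.range P).card := by
                  apply Finset.card_le_card
                  intro p hp
                  rw [mem_filter] at hp
                  exact mem_range.2 hp.2
              _ = P := Finset.card_range P
          · apply Real.rpow_le_rpow
            · apply Finset.prod_nonneg
              intro p _
              exact Nat.cast_nonneg _
            · rw [← Nat.cast_prod]
              exact_mod_cast Nat.le_of_dvd (by omega) (Nat.prod_primeFactors_dvd M)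
            · exact hδ.le
          · apply Real.rpow_nonneg
            apply Finset.prod_nonneg
            intro p _
            exact Nat.cast_nonneg _
          · positivity
  calc (X : ℝ) ^ δ * ∏ p ∈ M.primeFactors, (1 - (p : ℝ) ^ (-δ))⁻¹
      ≤ (X : ℝ) ^ δ * (K ^ P * (M : ℝ) ^ δ) :=
        mul_le_mul_of_nonneg_left h1 (Real.rpow_nonneg (Nat.cast_nonneg _) _)
    _ = K ^ P * ((X : ℝ) * M) ^ δ := by
        rw [Real.mul_rpow (Nat.cast_nonneg _) (Nat.cast_nonneg _)]
        ring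

end Pool.Agent.W319.GABC
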