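import Pool.Agent.W319.GABC.A

/-! The number of tuples in which each prime of an entry divides `q` or an earlier partial sum. -/

set_option autoImplicit false

namespace Pool.Agent.W319.GABC

open Finset

/-- partial sums -/
def ps {n : ℕ} (y : Fin n → ℤ) (c : ℕ) : ℤ := ∑ i : Fin n, if (i : ℕ) < c then y i else 0

/-- the chains -/
def AA (X q n : ℕ) : Set (Fin n → ℤ) :=
  {y | ∀ j : Fin n, y j ≠ 0 ∧ |y j| ≤ X ∧ (∀ c : ℕ, 1 ≤ c → c ≤ j → ps y c ≠ 0) ∧
    ∀ p : ℕ, p.Prime → (p : ℤ) ∣ y j → p ∣ q ∨ ∃ c : ℕ, 1 ≤ c ∧ c ≤ j ∧ (p : ℤ) ∣ ps y c}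

theorem ps_init {n : ℕ} (y : Fin (n + 1) → ℤ) (c : ℕ) (hc : c ≤ n) :
    ps (fun i : Fin n => y i.castSucc) c = ps y c := by
  unfold ps
  rw [Fin.sum_univ_castSucc]
  have h : ¬ ((Fin.last n : Fin (n + 1)) : ℕ) < c := by
    rw [Fin.val_last]
    omega
  rw [if_neg h, add_zero]
  rfl

theorem AA_init {X q n : ℕ} {y : Fin (n + 1) → ℤ} (hy : y ∈ AA X q (n + 1)) :
    (fun i : Fin n => y i.castSucc) ∈ AA X q n := by
  intro j
  obtain ⟨h1, h2, h3, h4⟩ := hy j.castSucc
  have hj : ((j.castSucc : Fin (n + 1)) : ℕ) = (j : ℕ) := rfl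
  have hjn := j.2
  refine ⟨h1, h2, fun c hc1 hc2 => ?_, fun p hp hpd => ?_⟩
  · rw [ps_init y c (by omega)]
    exact h3 c hc1 (by omega)
  · rcases h4 p hp hpd with h | ⟨c, hc1, hc2, hc3⟩
    · exact Or.inl h
    · exact Or.inr ⟨c, hc1, by omega, by rw [ps_init y c (by omega)]; exact hc3⟩

theorem ps_bound {X q n : ℕ} {y : Fin n → ℤ} (hy : y ∈ AA X q n) (c : ℕ) :
    |ps y c| ≤ n * X := by
  unfold ps
  calc |∑ i : Fin n, if (i : ℕ) < c then y i else 0| ≤ ∑ i : Fin n, |if (i : ℕ) < c then y i else 0| :=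
        Finset.abs_sum_le_sum_abs _ _
    _ ≤ ∑ i : Fin n, (X : ℤ) := by
        apply Finset.sum_le_sum
        intro i _
        split_ifs
        · exact (hy i).2.1
        · simp
    _ = n * X := by simp

/-- the modulus of the next entry -/
def QM {n : ℕ} (q : ℕ) (y : Fin n → ℤ) : ℕ := q * ∏ c ∈ Icc 1 n, (ps y c).natAbs

theorem AA_finite (X q n : ℕ) : (AA X q n).Finite := by
  have h : (Set.pi Set.univ (fun _ : Fin n => Set.Icc (-(X : ℤ)) X)).Finite :=
    Set.Finite.pi fun _ => Set.finite_Icc _ _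
  refine h.subset fun y hy => ?_
  intro j _
  exact abs_le.1 (hy j).2.1

open scoped Classical in
/-- the possible values of the next entry -/
theorem fibre_card {C δ : ℝ} (hC1 : 1 ≤ C) (hδ : 0 < δ)
    (hC : ∀ X M : ℕ, 1 ≤ M → ((NN X M).card : ℝ) ≤ C * ((X : ℝ) * M) ^ δ)
    (X q n : ℕ) (hX : 1 ≤ X) (hq : 1 ≤ q) (y : Fin n → ℤ) (hy : y ∈ AA X q n)
    (hps : ∀ c : ℕ, 1 ≤ c → c ≤ n → ps y c ≠ 0) :
    ((((Icc (-(X : ℤ)) X).filter fun m => m ≠ 0 ∧ ∀ p : ℕ, p.Prime → (p : ℤ) ∣ m →
      p ∣ q ∨ ∃ c : ℕ, 1 ≤ c ∧ c ≤ n ∧ (p : ℤ) ∣ ps y c).card : ℝ)) ≤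
      2 * C * ((X : ℝ) * (q * ((n : ℝ) * X) ^ n)) ^ δ := by
  set S := ((Icc (-(X : ℤ)) X).filter fun m => m ≠ 0 ∧ ∀ p : ℕ, p.Prime → (p : ℤ) ∣ m →
      p ∣ q ∨ ∃ c : ℕ, 1 ≤ c ∧ c ≤ n ∧ (p : ℤ) ∣ ps y c) with hS
  have hprod : (∏ c ∈ Icc 1 n, (ps y c).natAbs) ≠ 0 := by
    rw [Finset.prod_ne_zero_iff]
    intro c hc
    rw [mem_Icc] at hc
    exact Int.natAbs_ne_zero.2 (hps c hc.1 hc.2)
  have hM : 1 ≤ QM q y := by
    rw [QM]
    exact Nat.one_le_iff_ne_zero.2 (Nat.mul_ne_zero (by omega) hprod)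
  have himg : ∀ m ∈ S, m.natAbs ∈ NN X (QM q y) := by
    intro m hm
    rw [hS, mem_filter, mem_Icc] at hm
    obtain ⟨⟨ha, hb⟩, hm0, hmp⟩ := hm
    rw [NN, mem_filter, mem_Icc]
    refine ⟨⟨by omega, by omega⟩, fun p hp => ?_⟩
    have hpp := Nat.prime_of_mem_primeFactors hp
    have hpd := Nat.dvd_of_mem_primeFactors hp
    rw [Nat.mem_primeFactors]
    refine ⟨hpp, ?_, by omega⟩
    rcases hmp p hpp (Int.natCast_dvd.2 hpd) with h | ⟨c, hc1, hc2, hc3⟩
    · exact Dvd.dvd.mul_right h _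
    · apply Dvd.dvd.mul_left
      exact (Int.natCast_dvd.1 hc3).trans (Finset.dvd_prod_of_mem _ (mem_Icc.2 ⟨hc1, hc2⟩))
  have hcard : S.card ≤ 2 * (NN X (QM q y)).card := by
    apply Finset.card_le_mul_card_image_of_maps_to himg
    intro b _
    have : (S.filter fun x => x.natAbs = b) ⊆ {(b : ℤ), -(b : ℤ)} := by
      intro x hx
      rw [mem_filter] at hx
      rw [mem_insert, mem_singleton]
      omega
    exact (Finset.card_le_card this).trans Finset.card_le_two
  have hMle : ((QM q y : ℕ) : ℝ) ≤ q * ((n : ℝ) * X) ^ n := by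
    have h1 : (∏ c ∈ Icc 1 n, (ps y c).natAbs) ≤ (n * X) ^ n := by
      calc (∏ c ∈ Icc 1 n, (ps y c).natAbs) ≤ ∏ c ∈ Icc 1 n, (n * X) := by
            apply Finset.prod_le_prod' 
            intro c _
            have := ps_bound hy c
            zify
            exact this
        _ = (n * X) ^ n := by simp
    rw [QM]
    push_cast
    apply mul_le_mul_of_nonneg_left _ (Nat.cast_nonneg _)
    exact_mod_cast h1
  calc (S.card : ℝ) ≤ 2 * ((NN X (QM q y)).card : ℝ) := by exact_mod_cast hcard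
    _ ≤ 2 * (C * ((X : ℝ) * (QM q y : ℕ)) ^ δ) := by
        have := hC X (QM q y) hM
        linarith
    _ ≤ 2 * (C * ((X : ℝ) * (q * ((n : ℝ) * X) ^ n)) ^ δ) := by
        apply mul_le_mul_of_nonneg_left _ (by norm_num)
        apply mul_le_mul_of_nonneg_left _ (by linarith)
        apply Real.rpow_le_rpow (by positivity) _ hδ.le
        apply mul_le_mul_of_nonneg_left hMle (Nat.cast_nonneg _)
    _ = 2 * C * ((X : ℝ) * (q * ((n : ℝ) * X) ^ n)) ^ δ := by ring

theorem AA_card {C δ : ℝ} (hC1 : 1 ≤ C) (hδ : 0 < δ)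
    (hC : ∀ X M : ℕ, 1 ≤ M → ((NN X M).card : ℝ) ≤ C * ((X : ℝ) * M) ^ δ)
    (X q N : ℕ) (hX : 1 ≤ X) (hq : 1 ≤ q) : ∀ n ≤ N, ((AA X q n).ncard : ℝ) ≤
      (2 * C * ((X : ℝ) * (q * ((N : ℝ) * X) ^ N)) ^ δ) ^ n := by
  classical
  intro n
  induction n with
  | zero =>
    intro _
    rw [pow_zero]
    have h : (AA X q 0).ncard ≤ 1 := by
      rw [Set.ncard_le_one_iff (AA_finite X q 0)]
      intro a b _ _
      exact Subsingleton.elim a b
    exact_mod_cast h
  | succ n ih =>
    intro hn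
    have ih' := ih (by omega)
    set B : ℝ := 2 * C * ((X : ℝ) * (q * ((N : ℝ) * X) ^ N)) ^ δ with hB
    have hB0 : 0 ≤ B := by
      rw [hB]
      positivity
    have hfin := AA_finite X q (n + 1)
    have hfin' := AA_finite X q n
    let F : Finset (Fin (n + 1) → ℤ) := hfin.toFinset
    let G : Finset (Fin n → ℤ) := hfin'.toFinset
    let π : (Fin (n + 1) → ℤ) → (Fin n → ℤ) := fun y i => y i.castSucc
    have hmaps : ∀ y ∈ F, π y ∈ G := by
      intro y hy
      rw [Set.Finite.mem_toFinset] at hy ⊢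
      exact AA_init hy
    have hfib : ∀ z ∈ G, (((F.filter fun y => π y = z).card : ℕ) : ℝ) ≤ B := by
      intro z hz
      rw [Set.Finite.mem_toFinset] at hz
      by_cases hne : (F.filter fun y => π y = z).Nonempty
      · obtain ⟨y0, hy0⟩ := hne
        rw [mem_filter, Set.Finite.mem_toFinset] at hy0
        obtain ⟨hy0, hy0z⟩ := hy0
        have hps : ∀ c : ℕ, 1 ≤ c → c ≤ n → ps z c ≠ 0 := by
          intro c hc1 hc2
          rw [← hy0z]
          rw [ps_init y0 c hc2]
          exact (hy0 (Fin.last n)).2.2.1 c hc1 (by rw [Fin.val_last]; exact hc2)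
        have h1 := fibre_card hC1 hδ hC X q n hX hq z hz hps
        have h2 : (F.filter fun y => π y = z).card ≤ ((Icc (-(X : ℤ)) X).filter fun m =>
            m ≠ 0 ∧ ∀ p : ℕ, p.Prime → (p : ℤ) ∣ m →
            p ∣ q ∨ ∃ c : ℕ, 1 ≤ c ∧ c ≤ n ∧ (p : ℤ) ∣ ps z c).card := by
          apply Finset.card_le_card_of_injOn (fun y => y (Fin.last n))
          · intro y hy
            rw [Finset.mem_coe, mem_filter, Set.Finite.mem_toFinset] at hy
            obtain ⟨hy, hyz⟩ := hy
            rw [Finset.mem_coe, mem_filter, mem_Icc]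
            obtain ⟨g1, g2, g3, g4⟩ := hy (Fin.last n)
            refine ⟨abs_le.1 g2, g1, fun p hp hpd => ?_⟩
            rcases g4 p hp hpd with h | ⟨c, hc1, hc2, hc3⟩
            · exact Or.inl h
            · rw [Fin.val_last] at hc2
              refine Or.inr ⟨c, hc1, hc2, ?_⟩
              rw [← hyz]
              rw [ps_init y c hc2]
              exact hc3
          · intro a ha b hb hab
            rw [Finset.mem_coe, mem_filter] at ha hb
            have h5 : π a = π b := ha.2.trans hb.2.symm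
            funext i
            refine Fin.lastCases ?_ (fun i => ?_) i
            · exact hab
            · exact congrFun h5 i
        have h3 : (2 * C * ((X : ℝ) * (q * ((n : ℝ) * X) ^ n)) ^ δ) ≤ B := by
          rw [hB]
          apply mul_le_mul_of_nonneg_left _ (by linarith)
          apply Real.rpow_le_rpow (by positivity) _ hδ.le
          apply mul_le_mul_of_nonneg_left _ (Nat.cast_nonneg _)
          apply mul_le_mul_of_nonneg_left _ (Nat.cast_nonneg _)
          have hX' : (1 : ℝ) ≤ X := by exact_mod_cast hX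
          have hN' : (1 : ℝ) ≤ N := by
            have : 1 ≤ N := by omega
            exact_mod_cast this
          calc ((n : ℝ) * X) ^ n ≤ ((N : ℝ) * X) ^ n := by
                apply pow_le_pow_left₀ (by positivity)
                apply mul_le_mul_of_nonneg_right _ (by linarith)
                have : n ≤ N := by omega
                exact_mod_cast this
            _ ≤ ((N : ℝ) * X) ^ N := by
                apply pow_le_pow_right₀
                · nlinarith
                · omega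
        calc (((F.filter fun y => π y = z).card : ℕ) : ℝ) ≤ _ := by exact_mod_cast h2
          _ ≤ _ := h1
          _ ≤ B := h3
      · rw [Finset.not_nonempty_iff_eq_empty] at hne
        rw [hne, card_empty, Nat.cast_zero]
        exact hB0
    have hsum : F.card = ∑ z ∈ G, (F.filter fun y => π y = z).card :=
      Finset.card_eq_sum_card_fiberwise hmaps
    have hF : (AA X q (n + 1)).ncard = F.card := Set.ncard_eq_toFinset_card _ hfin
    have hG : (AA X q n).ncard = G.card := Set.ncard_eq_toFinset_card _ hfin'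
    rw [hF, hsum]
    push_cast
    calc ∑ z ∈ G, (((F.filter fun y => π y = z).card : ℕ) : ℝ) ≤ ∑ z ∈ G, B :=
          Finset.sum_le_sum hfib
      _ = (G.card : ℝ) * B := by rw [Finset.sum_const, nsmul_eq_mul]
      _ ≤ B ^ n * B := by
          apply mul_le_mul_of_nonneg_right _ hB0
          rw [← hG]
          exact ih'
      _ = B ^ (n + 1) := (pow_succ B n).symm

end Pool.Agent.W319.GABC
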