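import Pool.Agent.W319.GABC.B

/-! The exceptional set of the generalised abc inequality. -/

set_option autoImplicit false

namespace Pool.Agent.W319.GABC

open Finset

/-- the exponent: `1 - 1 / binom (n, n / 2)` -/
noncomputable def th (n : ℕ) : ℝ := 1 - 1 / (n.choose (n / 2) : ℝ)

theorem exists_numbering (n : ℕ) (P : Finset ℕ) (hP : ∀ p ∈ P, 1 ≤ p)
    (Z : ℕ → Finset (Fin n)) :
    ∃ f : Numbering (Fin n), ((∏ p ∈ P.filter (fun p => ¬ Numbering.IsPrefix f (Z p)), p : ℕ) : ℝ) ≤
      ((∏ p ∈ P, p : ℕ) : ℝ) ^ (th n) := by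
  classical
  by_contra hcon
  push Not at hcon
  have hc0 : (0 : ℝ) < (n.choose (n / 2) : ℝ) := by
    exact_mod_cast Nat.choose_pos (Nat.div_le_self n 2)
  have hpos : ∀ P' ⊆ P, (0 : ℝ) < ((∏ p ∈ P', p : ℕ) : ℝ) := by
    intro P' hP'
    have : 0 < ∏ p ∈ P', p := Finset.prod_pos fun p hp => hP p (hP' hp)
    exact_mod_cast this
  have hlog : ∀ P' ⊆ P, Real.log ((∏ p ∈ P', p : ℕ) : ℝ) = ∑ p ∈ P', Real.log (p : ℝ) := by
    intro P' hP'
    rw [Nat.cast_prod, Real.log_prod]
    intro p hp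
    have := hP p (hP' hp)
    have h : (0 : ℝ) < (p : ℝ) := by exact_mod_cast this
    exact h.ne'
  have h1 : ∀ f : Numbering (Fin n), th n * ∑ p ∈ P, Real.log (p : ℝ) <
      ∑ p ∈ P, if ¬ Numbering.IsPrefix f (Z p) then Real.log (p : ℝ) else 0 := by
    intro f
    have h2 := Real.log_lt_log (Real.rpow_pos_of_pos (hpos P (Finset.Subset.refl _)) _) (hcon f)
    rw [Real.log_rpow (hpos P (Finset.Subset.refl _)), hlog P (Finset.Subset.refl _),
      hlog _ (Finset.filter_subset _ _), Finset.sum_filter] at h2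
    exact h2
  have h3 := Finset.sum_lt_sum_of_nonempty (s := (Finset.univ : Finset (Numbering (Fin n))))
    ⟨(Fintype.equivFin (Fin n)), Finset.mem_univ _⟩ (fun f _ => h1 f)
  rw [Finset.sum_comm, Finset.sum_const, nsmul_eq_mul] at h3
  have hcard : ((Finset.univ : Finset (Numbering (Fin n))).card : ℝ) = (n.factorial : ℝ) := by
    rw [Finset.card_univ, Fintype.card_numbering, Fintype.card_fin]
  rw [hcard] at h3
  have h4 : ∀ p ∈ P, (∑ f : Numbering (Fin n),
      if ¬ Numbering.IsPrefix f (Z p) then Real.log (p : ℝ) else 0) ≤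
      (n.factorial : ℝ) * th n * Real.log (p : ℝ) := by
    intro p hp
    have hlp : 0 ≤ Real.log (p : ℝ) := Real.log_nonneg (by exact_mod_cast hP p hp)
    rw [← Finset.sum_filter, Finset.sum_const, nsmul_eq_mul]
    apply mul_le_mul_of_nonneg_right _ hlp
    have h5 : (((Finset.univ : Finset (Numbering (Fin n))).filter
        fun f => ¬ Numbering.IsPrefix f (Z p)).card : ℝ) =
        (n.factorial : ℝ) - ((Numbering.prefixed (Z p)).card : ℝ) := by
      have h6 := Finset.card_filter_add_card_filter_not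
        (s := (Finset.univ : Finset (Numbering (Fin n)))) (fun f => Numbering.IsPrefix f (Z p))
      have h7 : (Finset.univ.filter fun f : Numbering (Fin n) => Numbering.IsPrefix f (Z p)) =
          Numbering.prefixed (Z p) := by
        ext f
        simp
      rw [h7] at h6
      have h8 : (((Numbering.prefixed (Z p)).card : ℕ) : ℝ) +
          (((Finset.univ : Finset (Numbering (Fin n))).filter
        fun f => ¬ Numbering.IsPrefix f (Z p)).card : ℝ) = (n.factorial : ℝ) := by
        rw [← hcard]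
        exact_mod_cast h6
      linarith
    rw [h5]
    have hZ : (Z p).card ≤ n := by
      have := Finset.card_le_univ (Z p)
      rwa [Fintype.card_fin] at this
    have h9 : (n.factorial : ℝ) ≤ (n.choose (n / 2) : ℝ) * ((Numbering.prefixed (Z p)).card : ℝ) := by
      rw [Numbering.card_prefixed, Fintype.card_fin]
      have h10 := Nat.choose_mul_factorial_mul_factorial hZ
      rw [← h10]
      push_cast
      rw [mul_assoc]
      apply mul_le_mul_of_nonneg_right _ (by positivity)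
      exact_mod_cast Nat.choose_le_middle (Z p).card n
    have h11 : (n.factorial : ℝ) / (n.choose (n / 2) : ℝ) ≤
        ((Numbering.prefixed (Z p)).card : ℝ) := by
      rw [div_le_iff₀ hc0, mul_comm]
      exact h9
    rw [th, mul_sub, mul_one, mul_one_div]
    linarith
  have h12 := Finset.sum_le_sum h4
  rw [← Finset.mul_sum] at h12
  have h13 : (n.factorial : ℝ) * (th n * ∑ p ∈ P, Real.log (p : ℝ)) =
      (n.factorial : ℝ) * th n * ∑ p ∈ P, Real.log (p : ℝ) := by ring
  linarith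

/-- admissible tuples -/
def Adm {n : ℕ} (x : Fin n → ℤ) : Prop :=
  ∑ i, x i = 0 ∧ Finset.univ.gcd x = 1 ∧
    ∀ I : Finset (Fin n), I.Nonempty → I ≠ Finset.univ → ∑ i ∈ I, x i ≠ 0

/-- the radical of the product -/
def Rad {n : ℕ} (x : Fin n → ℤ) : ℕ := (∏ j, x j).natAbs.primeFactors.prod id

/-- the set of indices of the entries not divisible by `p` -/
def ZZ {n : ℕ} (x : Fin n → ℤ) (p : ℕ) : Finset (Fin n) :=
  Finset.univ.filter fun i => ¬ (p : ℤ) ∣ x i

theorem ps_eq {n : ℕ} (x : Fin n → ℤ) (f : Numbering (Fin n)) (c : ℕ) :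
    ps (fun j => x (f.symm j)) c = ∑ i ∈ Finset.univ.filter (fun i => (f i : ℕ) < c), x i := by
  rw [Finset.sum_filter, ps]
  exact Fintype.sum_equiv f.symm _ _ (fun j => by simp)

theorem mem_AA {n : ℕ} (hn : 2 ≤ n) (x : Fin n → ℤ) (hx : Adm x) (X : ℕ) (hX : ∀ i, |x i| ≤ X)
    (f : Numbering (Fin n)) :
    (fun j => x (f.symm j)) ∈ AA X (∏ p ∈ (∏ j, x j).natAbs.primeFactors.filter
      (fun p => ¬ Numbering.IsPrefix f (ZZ x p)), p) (Fintype.card (Fin n)) := by
  classical
  obtain ⟨hx0, hxg, hxI⟩ := hx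
  have hne : ∀ i, x i ≠ 0 := by
    intro i
    have h := hxI {i} ⟨i, Finset.mem_singleton_self i⟩ (by
      intro h
      have h2 := congrArg Finset.card h
      rw [Finset.card_singleton, Finset.card_univ, Fintype.card_fin] at h2
      omega)
    rwa [Finset.sum_singleton] at h
  have hprod : (∏ j, x j) ≠ 0 := Finset.prod_ne_zero_iff.2 fun i _ => hne i
  intro j
  refine ⟨hne _, hX _, fun c hc1 hc2 => ?_, fun p hp hpd => ?_⟩
  · rw [ps_eq]
    apply hxI
    · have hcard : 0 < Fintype.card (Fin n) := lt_of_le_of_lt (Nat.zero_le _) j.2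
      refine ⟨f.symm ⟨0, hcard⟩, ?_⟩
      rw [Finset.mem_filter]
      refine ⟨Finset.mem_univ _, ?_⟩
      rw [Equiv.apply_symm_apply]
      exact hc1
    · intro h
      have h2 : f.symm j ∈ Finset.univ.filter (fun i => (f i : ℕ) < c) := by
        rw [h]
        exact Finset.mem_univ _
      rw [Finset.mem_filter, Equiv.apply_symm_apply] at h2
      omega
  · have hpP : p ∈ (∏ j, x j).natAbs.primeFactors := by
      rw [Nat.mem_primeFactors]
      refine ⟨hp, ?_, Int.natAbs_ne_zero.2 hprod⟩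
      exact Int.natCast_dvd.1 (hpd.trans (Finset.dvd_prod_of_mem x (Finset.mem_univ (f.symm j))))
    by_cases hpre : Numbering.IsPrefix f (ZZ x p)
    · right
      refine ⟨(ZZ x p).card, ?_, ?_, ?_⟩
      · rw [Nat.one_le_iff_ne_zero]
        intro h0
        rw [Finset.card_eq_zero] at h0
        have h1 : (p : ℤ) ∣ Finset.univ.gcd x := by
          apply Finset.dvd_gcd
          intro i _
          by_contra h2
          have h3 : i ∈ ZZ x p := Finset.mem_filter.2 ⟨Finset.mem_univ _, h2⟩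
          rw [h0] at h3
          exact Finset.notMem_empty _ h3
        rw [hxg] at h1
        exact hp.one_lt.ne' (by exact_mod_cast Int.natAbs_dvd_natAbs.2 h1 |> Nat.dvd_one.1)
      · have h1 : f.symm j ∉ ZZ x p := by
          intro h2
          exact (Finset.mem_filter.1 h2).2 hpd
        rw [hpre, Equiv.apply_symm_apply] at h1
        omega
      · rw [ps_eq]
        have h1 : Finset.univ.filter (fun i => (f i : ℕ) < (ZZ x p).card) = ZZ x p := by
          ext i
          rw [Finset.mem_filter]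
          exact ⟨fun h => (hpre i).2 h.2, fun h => ⟨Finset.mem_univ _, (hpre i).1 h⟩⟩
        rw [h1]
        have h2 : ∑ i ∈ ZZ x p, x i = - ∑ i ∈ (ZZ x p)ᶜ, x i := by
          have h3 := Finset.sum_add_sum_compl (ZZ x p) x
          rw [hx0] at h3
          linarith
        rw [h2, dvd_neg]
        apply Finset.dvd_sum
        intro i hi
        rw [Finset.mem_compl] at hi
        by_contra h3
        exact hi (Finset.mem_filter.2 ⟨Finset.mem_univ _, h3⟩)
    · left
      exact Finset.dvd_prod_of_mem (fun p => p) (Finset.mem_filter.2 ⟨hpP, hpre⟩)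

/-- the tuples of height at most `X` with small radical -/
def TT (n : ℕ) (X : ℕ) (lam : ℝ) : Set (Fin n → ℤ) :=
  {x | Adm x ∧ (∀ i, |x i| ≤ X) ∧ (Rad x : ℝ) ≤ (X : ℝ) ^ lam}

theorem th_nonneg (n : ℕ) : 0 ≤ th n := by
  have : (1 : ℝ) ≤ (n.choose (n / 2) : ℝ) := by
    exact_mod_cast Nat.choose_pos (Nat.div_le_self n 2)
  rw [th, sub_nonneg, div_le_one (by linarith)]
  exact this

theorem main (n : ℕ) (hn : 2 ≤ n) (lam : ℝ) (hlam : 0 ≤ lam) (ε : ℝ) (hε : 0 < ε) :
    ∃ C : ℝ, ∀ X : ℕ, 1 ≤ X → (TT n X lam).Finite ∧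
      ((TT n X lam).ncard : ℝ) ≤ C * (X : ℝ) ^ (lam * th n + ε) := by
  classical
  set N := Fintype.card (Fin n) with hN
  have hNn : N = n := by rw [hN, Fintype.card_fin]
  have hN0 : (0 : ℝ) < N := by
    rw [hNn]
    exact_mod_cast (by omega : 0 < n)
  have hth := th_nonneg n
  set E : ℝ := 1 + (lam * th n + N) with hE
  have hE0 : 0 < E := by
    rw [hE]
    positivity
  set δ : ℝ := ε / (E * N) with hδ'
  have hδ : 0 < δ := by
    rw [hδ']
    positivity
  obtain ⟨C, hC1, hC⟩ := count hδ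
  set K : ℝ := 2 * C * ((N : ℝ) ^ N) ^ δ with hK
  refine ⟨(n.factorial : ℝ) * K ^ N, fun X hX => ?_⟩
  have hX1 : (1 : ℝ) ≤ X := by exact_mod_cast hX
  have hX0 : (0 : ℝ) < X := by linarith
  set Q0 : ℕ := ⌊(X : ℝ) ^ (lam * th n)⌋₊ with hQ0
  have hQ0le : (Q0 : ℝ) ≤ (X : ℝ) ^ (lam * th n) := Nat.floor_le (by positivity)
  let T : Finset (Fin n → ℤ) :=
    ((Finset.univ : Finset (Numbering (Fin n))) ×ˢ Finset.Icc 1 Q0).biUnion fun fq =>
      (AA_finite X fq.2 N).toFinset.image fun y => fun i => y (fq.1 i)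
  have hsub : TT n X lam ⊆ (T : Set (Fin n → ℤ)) := by
    intro x hx
    obtain ⟨hxA, hxX, hxR⟩ := hx
    have hP1 : ∀ p ∈ (∏ j, x j).natAbs.primeFactors, 1 ≤ p := fun p hp =>
      (Nat.prime_of_mem_primeFactors hp).one_lt.le
    obtain ⟨f, hf⟩ := exists_numbering n (∏ j, x j).natAbs.primeFactors hP1 (ZZ x)
    have hmem := mem_AA hn x hxA X hxX f
    set q := ∏ p ∈ (∏ j, x j).natAbs.primeFactors.filter
      (fun p => ¬ Numbering.IsPrefix f (ZZ x p)), p with hq
    have hq1 : 1 ≤ q := by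
      rw [hq]
      exact Finset.prod_pos (fun p hp => Nat.lt_of_lt_of_le Nat.one_pos
        (hP1 p (Finset.mem_filter.1 hp).1))
    have hq2 : q ≤ Q0 := by
      rw [hQ0]
      apply Nat.le_floor
      refine hf.trans ?_
      have h1 : ((∏ p ∈ (∏ j, x j).natAbs.primeFactors, p : ℕ) : ℝ) ≤ (X : ℝ) ^ lam := hxR
      calc ((∏ p ∈ (∏ j, x j).natAbs.primeFactors, p : ℕ) : ℝ) ^ th n ≤
            ((X : ℝ) ^ lam) ^ th n := Real.rpow_le_rpow (Nat.cast_nonneg _) h1 hth
        _ = (X : ℝ) ^ (lam * th n) := by rw [← Real.rpow_mul hX0.le]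
    rw [Finset.mem_coe, Finset.mem_biUnion]
    refine ⟨(f, q), Finset.mem_product.2 ⟨Finset.mem_univ _, Finset.mem_Icc.2 ⟨hq1, hq2⟩⟩, ?_⟩
    rw [Finset.mem_image]
    refine ⟨fun j => x (f.symm j), (Set.Finite.mem_toFinset _).2 hmem, ?_⟩
    funext i
    simp
  have hfin : (TT n X lam).Finite := (Finset.finite_toSet T).subset hsub
  refine ⟨hfin, ?_⟩
  have hB : ∀ q ∈ Finset.Icc 1 Q0, ((AA X q N).ncard : ℝ) ≤ K ^ N * (X : ℝ) ^ ε := by
    intro q hq
    rw [Finset.mem_Icc] at hq
    have h1 := AA_card hC1 hδ hC X q N hX hq.1 N le_rfl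
    refine h1.trans ?_
    have h2 : 2 * C * ((X : ℝ) * (q * ((N : ℝ) * X) ^ N)) ^ δ ≤ K * (X : ℝ) ^ (E * δ) := by
      have h3 : (X : ℝ) * (q * ((N : ℝ) * X) ^ N) ≤ (N : ℝ) ^ N * (X : ℝ) ^ E := by
        have h4 : (q : ℝ) ≤ (X : ℝ) ^ (lam * th n) := by
          have : (q : ℝ) ≤ Q0 := by exact_mod_cast hq.2
          exact this.trans hQ0le
        have h5 : (X : ℝ) ^ E = (X : ℝ) * ((X : ℝ) ^ (lam * th n) * (X : ℝ) ^ N) := by
          rw [hE, Real.rpow_add hX0, Real.rpow_add hX0, Real.rpow_one, Real.rpow_natCast]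
        rw [h5, mul_pow]
        calc (X : ℝ) * (q * ((N : ℝ) ^ N * (X : ℝ) ^ N)) ≤
              (X : ℝ) * ((X : ℝ) ^ (lam * th n) * ((N : ℝ) ^ N * (X : ℝ) ^ N)) := by
              apply mul_le_mul_of_nonneg_left _ hX0.le
              apply mul_le_mul_of_nonneg_right h4 (by positivity)
          _ = (N : ℝ) ^ N * ((X : ℝ) * ((X : ℝ) ^ (lam * th n) * (X : ℝ) ^ N)) := by ring
      calc 2 * C * ((X : ℝ) * (q * ((N : ℝ) * X) ^ N)) ^ δ ≤
            2 * C * ((N : ℝ) ^ N * (X : ℝ) ^ E) ^ δ := by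
            apply mul_le_mul_of_nonneg_left _ (by linarith)
            exact Real.rpow_le_rpow (by positivity) h3 hδ.le
        _ = K * (X : ℝ) ^ (E * δ) := by
            rw [Real.mul_rpow (by positivity) (by positivity), ← Real.rpow_mul hX0.le, hK]
            ring
    calc (2 * C * ((X : ℝ) * (q * ((N : ℝ) * X) ^ N)) ^ δ) ^ N ≤
          (K * (X : ℝ) ^ (E * δ)) ^ N := by
          apply pow_le_pow_left₀ (by positivity) h2
      _ = K ^ N * (X : ℝ) ^ ε := by
          rw [mul_pow, ← Real.rpow_natCast ((X : ℝ) ^ (E * δ)) N, ← Real.rpow_mul hX0.le]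
          congr 2
          rw [hδ']
          field_simp
  have hT : ((T.card : ℕ) : ℝ) ≤ (n.factorial : ℝ) * K ^ N * (X : ℝ) ^ (lam * th n + ε) := by
    have h1 : T.card ≤ ∑ fq ∈ (Finset.univ : Finset (Numbering (Fin n))) ×ˢ Finset.Icc 1 Q0,
        (AA X fq.2 N).ncard := by
      refine Finset.card_biUnion_le.trans ?_
      apply Finset.sum_le_sum
      intro fq _
      rw [Set.ncard_eq_toFinset_card _ (AA_finite X fq.2 N)]
      exact Finset.card_image_le
    calc ((T.card : ℕ) : ℝ) ≤ ∑ fq ∈ (Finset.univ : Finset (Numbering (Fin n))) ×ˢ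
            Finset.Icc 1 Q0, ((AA X fq.2 N).ncard : ℝ) := by exact_mod_cast h1
      _ ≤ ∑ fq ∈ (Finset.univ : Finset (Numbering (Fin n))) ×ˢ Finset.Icc 1 Q0,
            K ^ N * (X : ℝ) ^ ε := by
          apply Finset.sum_le_sum
          intro fq hfq
          exact hB fq.2 (Finset.mem_product.1 hfq).2
      _ = (n.factorial : ℝ) * (Q0 : ℝ) * (K ^ N * (X : ℝ) ^ ε) := by
          rw [Finset.sum_const, Finset.card_product, Finset.card_univ, Fintype.card_numbering,
            Fintype.card_fin, Nat.card_Icc, nsmul_eq_mul]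
          push_cast
          ring_nf
      _ ≤ (n.factorial : ℝ) * ((X : ℝ) ^ (lam * th n)) * (K ^ N * (X : ℝ) ^ ε) := by
          have hK0 : 0 ≤ K := by
            rw [hK]
            positivity
          apply mul_le_mul_of_nonneg_right _ (by positivity)
          apply mul_le_mul_of_nonneg_left hQ0le (by positivity)
      _ = (n.factorial : ℝ) * K ^ N * (X : ℝ) ^ (lam * th n + ε) := by
          rw [Real.rpow_add hX0]
          ring
  refine le_trans ?_ hT
  have h2 := Set.ncard_le_ncard hsub (Finset.finite_toSet T)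
  rw [Set.ncard_coe_finset] at h2
  exact_mod_cast h2

end Pool.Agent.W319.GABC
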