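import Pool.Agent.W319.GABC.C

/-! Tuples with small radical and superpolynomial height. -/

set_option autoImplicit false

namespace Pool.Agent.W319.GABC

open Finset

theorem two_rpow_le {δ : ℝ} (h0 : 0 ≤ δ) (h1 : δ ≤ 1) : (2 : ℝ) ^ (-δ) ≤ 1 - δ / 2 := by
  have h := rpow_one_add_le_one_add_mul_self (s := -(1 / 2)) (by norm_num) h0 h1
  have h2 : (1 + -(1 / 2) : ℝ) = 2⁻¹ := by norm_num
  rw [h2, Real.inv_rpow (by norm_num), ← Real.rpow_neg (by norm_num)] at h
  linarith

theorem count' {δ : ℝ} (hδ : 0 < δ) (hδ1 : δ ≤ 1) (X M : ℕ) (hM : 1 ≤ M) :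
    ((NN X M).card : ℝ) ≤ (2 / δ) ^ ⌈(2 : ℝ) ^ (1 / δ)⌉₊ * ((X : ℝ) * M) ^ δ := by
  set P := ⌈(2 : ℝ) ^ (1 / δ)⌉₊ with hP'
  have hP : (2 : ℝ) ^ (1 / δ) ≤ P := Nat.le_ceil _
  have h2δ : (2 : ℝ) ^ (-δ) < 1 := by
    apply Real.rpow_lt_one_of_one_lt_of_neg (by norm_num) (by linarith)
  have h2δ' : (0 : ℝ) < (2 : ℝ) ^ (-δ) := Real.rpow_pos_of_pos (by norm_num) _
  set K : ℝ := 2 / δ with hK
  have hK1 : 1 ≤ K := by
    rw [hK, one_le_div hδ]
    linarith
  have hK2 : (1 - (2 : ℝ) ^ (-δ))⁻¹ ≤ K := by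
    rw [hK, inv_le_comm₀ (by linarith) (by positivity), inv_div]
    have := two_rpow_le hδ.le hδ1
    linarith
  rcases Nat.eq_zero_or_pos X with hX | hX
  · subst hX
    have h0 : NN 0 M = ∅ := by
      rw [NN]
      simp
    rw [h0, card_empty, Nat.cast_zero]
    positivity
  refine (rankin hδ X M).trans ?_
  have hfac : ∀ p ∈ M.primeFactors, (1 - (p : ℝ) ^ (-δ))⁻¹ ≤
      (if p < P then K else 1) * (p : ℝ) ^ δ := by
    intro p hp
    have hpp := Nat.prime_of_mem_primeFactors hp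
    have hp2 : (2 : ℝ) ≤ p := by exact_mod_cast hpp.two_le
    have hp0 : (0 : ℝ) < p := by linarith
    have hpδ : (1 : ℝ) ≤ (p : ℝ) ^ δ := Real.one_le_rpow (by linarith) hδ.le
    have hpm : (p : ℝ) ^ (-δ) ≤ (2 : ℝ) ^ (-δ) :=
      Real.rpow_le_rpow_of_nonpos (by norm_num) hp2 (by linarith)
    split_ifs with h
    · have h1 : (1 - (p : ℝ) ^ (-δ))⁻¹ ≤ K := by
        refine le_trans ?_ hK2
        apply inv_anti₀ (by linarith)
        linarith
      calc (1 - (p : ℝ) ^ (-δ))⁻¹ ≤ K := h1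
        _ = K * 1 := (mul_one K).symm
        _ ≤ K * (p : ℝ) ^ δ := mul_le_mul_of_nonneg_left hpδ (by linarith)
    · rw [one_mul]
      have h2 : (2 : ℝ) ≤ (p : ℝ) ^ δ := by
        have h3 : (2 : ℝ) ^ (1 / δ) ≤ p := hP.trans (by exact_mod_cast Nat.le_of_not_lt h)
        calc (2 : ℝ) = ((2 : ℝ) ^ (1 / δ)) ^ δ := by
              rw [← Real.rpow_mul (by norm_num), one_div_mul_cancel hδ.ne', Real.rpow_one]
          _ ≤ (p : ℝ) ^ δ := Real.rpow_le_rpow (by positivity) h3 hδ.le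
      rw [Real.rpow_neg hp0.le]
      have h4 : (0 : ℝ) < (p : ℝ) ^ δ := by linarith
      rw [inv_le_comm₀ (by rw [sub_pos]; apply inv_lt_one_of_one_lt₀; linarith) h4]
      have h5 : ((p : ℝ) ^ δ)⁻¹ ≤ 1 / 2 := by
        rw [inv_le_comm₀ h4 (by norm_num)]
        norm_num
        exact h2
      linarith
  have h1 : ∏ p ∈ M.primeFactors, (1 - (p : ℝ) ^ (-δ))⁻¹ ≤ K ^ P * (M : ℝ) ^ δ := by
    calc ∏ p ∈ M.primeFactors, (1 - (p : ℝ) ^ (-δ))⁻¹
        ≤ ∏ p ∈ M.primeFactors, (if p < P then K else 1) * (p : ℝ) ^ δ := by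
          apply Finset.prod_le_prod
          · intro p hp
            have hpp := Nat.prime_of_mem_primeFactors hp
            have h6 := fd_lt hδ hpp
            rw [fd_apply, Real.norm_of_nonneg (Real.rpow_nonneg (Nat.cast_nonneg _) _)] at h6
            apply inv_nonneg.2
            linarith
          · exact hfac
      _ = (∏ p ∈ M.primeFactors, (if p < P then K else 1)) *
            (∏ p ∈ M.primeFactors, (p : ℝ)) ^ δ := by
          rw [Finset.prod_mul_distrib, Real.finsetProd_rpow]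
          intro p _
          exact Nat.cast_nonneg _
      _ ≤ K ^ P * (M : ℝ) ^ δ := by
          apply mul_le_mul
          · rw [Finset.prod_ite, Finset.prod_const, Finset.prod_const_one, mul_one]
            apply pow_le_pow_right₀ hK1
            calc (M.primeFactors.filter fun p => p < P).card ≤ (Finset.range P).card := by
                  apply Finset.card_le_card
                  intro p hp
                  rw [mem_filter] at hp
                  exact mem_range.2 hp.2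
              _ = P := Finset.card_range P
          · apply Real.rpow_le_rpow
            · apply Finset.prod_nonneg
              intro p _
              exact Nat.cast_nonneg _
            · rw [← Nat.cast_prod]
              exact_mod_cast Nat.le_of_dvd (by omega) (Nat.prod_primeFactors_dvd M)
            · exact hδ.le
          · apply Real.rpow_nonneg
            apply Finset.prod_nonneg
            intro p _
            exact Nat.cast_nonneg _
          · positivity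
  calc (X : ℝ) ^ δ * ∏ p ∈ M.primeFactors, (1 - (p : ℝ) ^ (-δ))⁻¹
      ≤ (X : ℝ) ^ δ * (K ^ P * (M : ℝ) ^ δ) :=
        mul_le_mul_of_nonneg_left h1 (Real.rpow_nonneg (Nat.cast_nonneg _) _)
    _ = K ^ P * ((X : ℝ) * M) ^ δ := by
        rw [Real.mul_rpow (Nat.cast_nonneg _) (Nat.cast_nonneg _)]
        ring

/-- the admissible tuples of height at most `H` with radical at most `Y` -/
def UU (n H Y : ℕ) : Set (Fin n → ℤ) :=
  {x | Adm x ∧ (∀ i, |x i| ≤ H) ∧ Rad x ≤ Y}

theorem th_le_one (n : ℕ) : th n ≤ 1 := by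
  rw [th]
  have : (0 : ℝ) ≤ 1 / (n.choose (n / 2) : ℝ) := by positivity
  linarith

theorem gen (n : ℕ) (hn : 2 ≤ n) (δ : ℝ) (hδ : 0 < δ) (hδ1 : δ ≤ 1) (H Y : ℕ) (hH : 1 ≤ H) :
    (UU n H Y).Finite ∧ ((UU n H Y).ncard : ℝ) ≤ (n.factorial : ℝ) * (Y : ℝ) ^ th n *
      (2 * (2 / δ) ^ ⌈(2 : ℝ) ^ (1 / δ)⌉₊ *
        ((H : ℝ) * ((Y : ℝ) ^ th n * ((n : ℝ) * H) ^ n)) ^ δ) ^ n := by
  classical
  set C : ℝ := (2 / δ) ^ ⌈(2 : ℝ) ^ (1 / δ)⌉₊ with hCdef
  have hC1 : 1 ≤ C := by
    rw [hCdef]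
    apply one_le_pow₀
    rw [one_le_div hδ]
    linarith
  have hC : ∀ X M : ℕ, 1 ≤ M → ((NN X M).card : ℝ) ≤ C * ((X : ℝ) * M) ^ δ :=
    fun X M hM => count' hδ hδ1 X M hM
  set N := Fintype.card (Fin n) with hN
  have hNn : N = n := by rw [hN, Fintype.card_fin]
  have hth := th_nonneg n
  set Q0 : ℕ := ⌊(Y : ℝ) ^ (th n)⌋₊ with hQ0
  have hQ0le : (Q0 : ℝ) ≤ (Y : ℝ) ^ (th n) := Nat.floor_le (by positivity)
  let T : Finset (Fin n → ℤ) :=
    ((Finset.univ : Finset (Numbering (Fin n))) ×ˢ Finset.Icc 1 Q0).biUnion fun fq =>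
      (AA_finite H fq.2 N).toFinset.image fun y => fun i => y (fq.1 i)
  have hsub : UU n H Y ⊆ (T : Set (Fin n → ℤ)) := by
    intro x hx
    obtain ⟨hxA, hxX, hxR⟩ := hx
    have hP1 : ∀ p ∈ (∏ j, x j).natAbs.primeFactors, 1 ≤ p := fun p hp =>
      (Nat.prime_of_mem_primeFactors hp).one_lt.le
    obtain ⟨f, hf⟩ := exists_numbering n (∏ j, x j).natAbs.primeFactors hP1 (ZZ x)
    have hmem := mem_AA hn x hxA H hxX f
    set q := ∏ p ∈ (∏ j, x j).natAbs.primeFactors.filter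
      (fun p => ¬ Numbering.IsPrefix f (ZZ x p)), p with hq
    have hq1 : 1 ≤ q := by
      rw [hq]
      exact Finset.prod_pos (fun p hp => Nat.lt_of_lt_of_le Nat.one_pos
        (hP1 p (Finset.mem_filter.1 hp).1))
    have hq2 : q ≤ Q0 := by
      rw [hQ0]
      apply Nat.le_floor
      refine hf.trans ?_
      have h1 : ((∏ p ∈ (∏ j, x j).natAbs.primeFactors, p : ℕ) : ℝ) ≤ (Y : ℝ) := by
        exact_mod_cast hxR
      exact Real.rpow_le_rpow (Nat.cast_nonneg _) h1 hth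
    rw [Finset.mem_coe, Finset.mem_biUnion]
    refine ⟨(f, q), Finset.mem_product.2 ⟨Finset.mem_univ _, Finset.mem_Icc.2 ⟨hq1, hq2⟩⟩, ?_⟩
    rw [Finset.mem_image]
    refine ⟨fun j => x (f.symm j), (Set.Finite.mem_toFinset _).2 hmem, ?_⟩
    funext i
    simp
  have hfin : (UU n H Y).Finite := (Finset.finite_toSet T).subset hsub
  refine ⟨hfin, ?_⟩
  set B : ℝ := 2 * C * ((H : ℝ) * ((Y : ℝ) ^ th n * ((n : ℝ) * H) ^ n)) ^ δ with hBdef
  have hB0 : 0 ≤ B := by
    rw [hBdef]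
    positivity
  have hB : ∀ q ∈ Finset.Icc 1 Q0, ((AA H q N).ncard : ℝ) ≤ B ^ n := by
    intro q hq
    rw [Finset.mem_Icc] at hq
    have h1 := AA_card hC1 hδ hC H q N hH hq.1 N le_rfl
    refine h1.trans ?_
    have h4 : (q : ℝ) ≤ (Y : ℝ) ^ (th n) := by
      have : (q : ℝ) ≤ Q0 := by exact_mod_cast hq.2
      exact this.trans hQ0le
    rw [hNn]
    apply pow_le_pow_left₀ (by positivity)
    rw [hBdef]
    apply mul_le_mul_of_nonneg_left _ (by linarith)
    apply Real.rpow_le_rpow (by positivity) _ hδ.le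
    apply mul_le_mul_of_nonneg_left _ (Nat.cast_nonneg _)
    exact mul_le_mul_of_nonneg_right h4 (by positivity)
  have hT : ((T.card : ℕ) : ℝ) ≤ (n.factorial : ℝ) * (Y : ℝ) ^ th n * B ^ n := by
    have h1 : T.card ≤ ∑ fq ∈ (Finset.univ : Finset (Numbering (Fin n))) ×ˢ Finset.Icc 1 Q0,
        (AA H fq.2 N).ncard := by
      refine Finset.card_biUnion_le.trans ?_
      apply Finset.sum_le_sum
      intro fq _
      rw [Set.ncard_eq_toFinset_card _ (AA_finite H fq.2 N)]
      exact Finset.card_image_le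
    calc ((T.card : ℕ) : ℝ) ≤ ∑ fq ∈ (Finset.univ : Finset (Numbering (Fin n))) ×ˢ
            Finset.Icc 1 Q0, ((AA H fq.2 N).ncard : ℝ) := by exact_mod_cast h1
      _ ≤ ∑ fq ∈ (Finset.univ : Finset (Numbering (Fin n))) ×ˢ Finset.Icc 1 Q0,
            B ^ n := by
          apply Finset.sum_le_sum
          intro fq hfq
          exact hB fq.2 (Finset.mem_product.1 hfq).2
      _ = (n.factorial : ℝ) * (Q0 : ℝ) * B ^ n := by
          rw [Finset.sum_const, Finset.card_product, Finset.card_univ, Fintype.card_numbering,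
            Fintype.card_fin, Nat.card_Icc, nsmul_eq_mul]
          push_cast
          ring_nf
      _ ≤ (n.factorial : ℝ) * ((Y : ℝ) ^ (th n)) * B ^ n := by
          apply mul_le_mul_of_nonneg_right _ (by positivity)
          apply mul_le_mul_of_nonneg_left hQ0le (by positivity)
  refine le_trans ?_ hT
  have h2 := Set.ncard_le_ncard hsub (Finset.finite_toSet T)
  rw [Set.ncard_coe_finset] at h2
  exact_mod_cast h2

end Pool.Agent.W319.GABC
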